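import Pool.Agent.N928.FG.Stm

/-!
Project FG (helper928), part ZLOG: `Z 1 - Z u` is of order `(1 - u)² log (1 / (1 - u))`.
-/

set_option autoImplicit false

namespace Pool.Agent.N80.FG.ZLOG

open Pool.Agent.N928.FG

/-- the comparison function -/
noncomputable def G (t : ℝ) : ℝ := -((1 - t) * ((1 - t) * Real.log (1 - t)))

theorem G_cont : Continuous G := by
  unfold G
  have h : Continuous fun t : ℝ => (1 - t) * Real.log (1 - t) :=
    Real.continuous_mul_log.comp (continuous_const.sub continuous_id)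
  exact ((continuous_const.sub continuous_id).mul h).neg

theorem G_one : G 1 = 0 := by
  simp [G]

theorem G_eq (t : ℝ) : G t = (1 - t) ^ 2 * Real.log (1 / (1 - t)) := by
  rw [G, one_div, Real.log_inv]
  ring

theorem G_deriv {t : ℝ} (ht : t < 1) :
    HasDerivAt G (2 * ((1 - t) * Real.log (1 - t)) + (1 - t)) t := by
  have hx : (1 - t) ≠ 0 := (sub_pos.2 ht).ne'
  have h1 : HasDerivAt (fun t : ℝ => 1 - t) (-1) t := by
    simpa using (hasDerivAt_id t).const_sub 1
  have h2 : HasDerivAt (fun t : ℝ => Real.log (1 - t)) (-1 / (1 - t)) t := h1.log hx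
  have h3 := (h1.mul (h1.mul h2)).neg
  refine h3.congr_deriv ?_
  simp only [Pi.mul_apply]
  field_simp
  ring

theorem t_ZLOG (h1 : S_DZ) (h2 : S_DLOG) (h3 : S_WLIN) : S_ZLOG := by
  intro β hβ0 hβ1 hD
  obtain ⟨hW, -, hZc, -, hZd⟩ := h1 β hβ0 hβ1
  obtain ⟨c, C, u₀, hc, hC, hu0, hu1, hb⟩ := h2 β hβ0 hβ1 hD
  obtain ⟨c', C', hc', -, hlin⟩ := h3 β hβ0 hβ1
  obtain ⟨M, hM⟩ : ∃ M, M = W β 1 := ⟨_, rfl⟩
  have hM1 : 1 ≤ M := by rw [hM]; exact hW 1 ⟨zero_le_one, le_refl _⟩
  have hWM : ∀ u : ℝ, 0 ≤ u → u ≤ 1 → W β u ≤ M := by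
    intro u hu hu'
    have h4 := (hlin u hu hu').1
    have h5 : 0 ≤ c' * (1 - u) := mul_nonneg hc'.le (by linarith)
    rw [hM]
    linarith
  obtain ⟨u₁, hu₁⟩ : ∃ u₁, u₁ = max u₀ (1 - Real.exp (-1)) := ⟨_, rfl⟩
  have he : 0 < Real.exp (-1 : ℝ) := Real.exp_pos _
  have hu₁0 : u₀ ≤ u₁ := by rw [hu₁]; exact le_max_left _ _
  have hu₁e : 1 - Real.exp (-1) ≤ u₁ := by rw [hu₁]; exact le_max_right _ _
  have hu₁1 : u₁ < 1 := by rw [hu₁]; exact max_lt hu1 (by linarith)
  have hu₁p : 0 < u₁ := lt_of_lt_of_le hu0 hu₁0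
  -- the logarithm
  have hl : ∀ t : ℝ, u₁ ≤ t → t < 1 → Real.log (1 - t) ≤ -1 := by
    intro t ht ht'
    rw [Real.log_le_iff_le_exp (by linarith)]
    linarith
  -- the derivative of `Z`
  have hZ' : ∀ t : ℝ, u₁ ≤ t → t < 1 →
      c / M ^ 2 * (-((1 - t) * Real.log (1 - t))) ≤ D β t / W β t ^ 2 ∧
      D β t / W β t ^ 2 ≤ C * (-((1 - t) * Real.log (1 - t))) := by
    intro t ht ht'
    obtain ⟨h4, h5⟩ := hb t (hu₁0.trans ht) ht'
    rw [one_div, Real.log_inv] at h4 h5
    have hW1 := hW t ⟨by linarith, ht'.le⟩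
    have hW2 := hWM t (by linarith) ht'.le
    have hx : 0 < 1 - t := by linarith
    have hlt := hl t ht ht'
    have hℓ : 0 < -((1 - t) * Real.log (1 - t)) := by nlinarith
    have hDnn : 0 ≤ D β t := by
      refine le_trans ?_ h4
      have : (1 - t) * -Real.log (1 - t) = -((1 - t) * Real.log (1 - t)) := by ring
      rw [this]
      positivity
    have hWp : 0 < W β t := by linarith
    have hWs1 : 1 ≤ W β t ^ 2 := one_le_pow₀ hW1
    have hWs2 : W β t ^ 2 ≤ M ^ 2 := pow_le_pow_left₀ hWp.le hW2 2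
    constructor
    · rw [le_div_iff₀ (by positivity)]
      have h6 : c / M ^ 2 * (-((1 - t) * Real.log (1 - t))) * W β t ^ 2 ≤
          c / M ^ 2 * (-((1 - t) * Real.log (1 - t))) * M ^ 2 :=
        mul_le_mul_of_nonneg_left hWs2 (by positivity)
      have h7 : c / M ^ 2 * (-((1 - t) * Real.log (1 - t))) * M ^ 2 =
          c * ((1 - t) * -Real.log (1 - t)) := by
        field_simp
      linarith
    · rw [div_le_iff₀ (by positivity)]
      have h6 : C * (-((1 - t) * Real.log (1 - t))) * 1 ≤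
          C * (-((1 - t) * Real.log (1 - t))) * W β t ^ 2 :=
        mul_le_mul_of_nonneg_left hWs1 (by positivity)
      have h7 : C * (-((1 - t) * Real.log (1 - t))) * 1 = C * ((1 - t) * -Real.log (1 - t)) := by
        ring
      linarith
  have hZcI : ContinuousOn (Z β) (Set.Icc u₁ 1) := hZc.mono (Set.Icc_subset_Icc_left hu₁p.le)
  have hc₁ : 0 < c / M ^ 2 := by positivity
  have hder : ∀ (κ t : ℝ), t ∈ Set.Ioo u₁ 1 → HasDerivAt (fun t => Z β t + κ * G t)
      (D β t / W β t ^ 2 + κ * (2 * ((1 - t) * Real.log (1 - t)) + (1 - t))) t := by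
    intro κ t ht
    exact (hZd t ⟨by linarith [ht.1], ht.2⟩).add ((G_deriv ht.2).const_mul κ)
  have hcont : ∀ κ : ℝ, ContinuousOn (fun t => Z β t + κ * G t) (Set.Icc u₁ 1) := by
    intro κ
    exact hZcI.add (continuous_const.mul G_cont).continuousOn
  have hmono : MonotoneOn (fun t => Z β t + c / M ^ 2 / 2 * G t) (Set.Icc u₁ 1) := by
    refine monotoneOn_of_deriv_nonneg (convex_Icc _ _) (hcont _) ?_ ?_
    · rw [interior_Icc]
      intro t ht
      exact (hder _ t ht).differentiableAt.differentiableWithinAt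
    · rw [interior_Icc]
      intro t ht
      rw [(hder _ t ht).deriv]
      have h4 := (hZ' t ht.1.le ht.2).1
      have hx : 0 < 1 - t := by linarith [ht.2]
      have h5 : 0 < c / M ^ 2 / 2 * (1 - t) := by positivity
      have h6 : c / M ^ 2 / 2 * (2 * ((1 - t) * Real.log (1 - t)) + (1 - t)) =
          -(c / M ^ 2 * (-((1 - t) * Real.log (1 - t)))) + c / M ^ 2 / 2 * (1 - t) := by ring
      rw [h6]
      linarith
  have hanti : AntitoneOn (fun t => Z β t + C * G t) (Set.Icc u₁ 1) := by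
    refine antitoneOn_of_deriv_nonpos (convex_Icc _ _) (hcont _) ?_ ?_
    · rw [interior_Icc]
      intro t ht
      exact (hder _ t ht).differentiableAt.differentiableWithinAt
    · rw [interior_Icc]
      intro t ht
      rw [(hder _ t ht).deriv]
      have h4 := (hZ' t ht.1.le ht.2).2
      have hx : 0 < 1 - t := by linarith [ht.2]
      have hlt := hl t ht.1.le ht.2
      have h5 : C * ((1 - t) * (Real.log (1 - t) + 1)) ≤ 0 :=
        mul_nonpos_of_nonneg_of_nonpos hC.le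
          (mul_nonpos_of_nonneg_of_nonpos hx.le (by linarith))
      have h6 : C * (2 * ((1 - t) * Real.log (1 - t)) + (1 - t)) =
          -(C * (-((1 - t) * Real.log (1 - t)))) + C * ((1 - t) * (Real.log (1 - t) + 1)) := by
        ring
      rw [h6]
      linarith
  refine ⟨c / M ^ 2 / 2, C, u₁, by positivity, hC, hu₁p, hu₁1, fun u hu hu' => ?_⟩
  rw [← G_eq]
  have hmem : u ∈ Set.Icc u₁ 1 := ⟨hu, hu'.le⟩
  have hmem1 : (1 : ℝ) ∈ Set.Icc u₁ 1 := ⟨hu₁1.le, le_refl _⟩
  have h4 := hmono hmem hmem1 hu'.le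
  have h5 := hanti hmem hmem1 hu'.le
  simp only [G_one, mul_zero, add_zero] at h4 h5
  constructor <;> linarith

end Pool.Agent.N80.FG.ZLOG
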